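import Pool.Agent.R121.LA

set_option autoImplicit false

/-!
# Very small multipliers in a residue class which make `n k + 1` an almost prime
-/

namespace Pool.Agent.Results.MP_0911b1_nt.SmallMultipliersAlmostPrimes

open Finset
open Pool.Agent

open Classical in
/-- the number of the `1 ≤ j ≤ T` such that `N = (a j + r) n + 1` has at most `k` prime factors
(counted with multiplicity), all of them at least `w` -/
noncomputable def multipliers (a r n k : ℕ) (w T : ℝ) : ℕ :=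
  ((Icc 1 ⌊T⌋₊).filter (fun j : ℕ => ((a * j + r) * n + 1).primeFactorsList.length ≤ k ∧
    ∀ p : ℕ, p.Prime → p ∣ (a * j + r) * n + 1 → w ≤ p)).card

lemma cnt_le (a r n k : ℕ) (w T : ℝ) :
    R490.LGb.cnt (fun j => a * j + r) (fun _ => 1) k ⌊T⌋₊ n w ≤ multipliers a r n k w T := by
  classical
  unfold R490.LGb.cnt multipliers
  apply card_le_card
  intro j hj
  rw [mem_filter] at hj ⊢
  obtain ⟨h1, h2, h3, h4⟩ := hj
  have e : ((a * j + r : ℕ) : ℤ) * n + 1 = (((a * j + r) * n + 1 : ℕ) : ℤ) := by push_cast; ring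
  rw [e] at h3 h4
  rw [Int.toNat_natCast] at h3
  exact ⟨h1, h3, fun p hp hd => h4 p hp (by exact_mod_cast hd)⟩

/-- **For almost all `n` many very small multipliers `k ≡ r (mod a)` make `n k + 1` an almost prime.** -/
theorem result (a r : ℕ) (ha : 1 ≤ a) (θ ε : ℝ) (k : ℕ) (hθ : 0 < θ) (hθ1 : θ ≤ 1)
    (hk : 1 / 8 + 25 / (12 * θ) < k) (hε : 0 < ε) :
    ∃ κ Λ : ℝ, 0 < κ ∧ 0 < Λ ∧ ∀ l : ℝ, Λ ≤ l → ∃ X₀ : ℕ, ∀ X : ℕ, X₀ ≤ X → ∀ Z L : ℕ,
      (X : ℝ) ^ θ ≤ L → Z + L ≤ X →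
      (({n : ℕ | n ∈ Ioc Z (Z + L) ∧ (r * n + 1).Coprime a ∧
        (multipliers a r n k ((X : ℝ) ^ (θ / 10)) (l * Real.log X) : ℝ) < κ * l} : Set ℕ).ncard : ℝ) ≤
        ε * L := by
  classical
  obtain ⟨κ, Λ, hκ, hΛ, h⟩ := R121.LA.mainA a r 1 ha one_ne_zero θ ε k hθ hθ1 hk hε
  refine ⟨κ, Λ, hκ, hΛ, ?_⟩
  intro l hl
  obtain ⟨X₀, hX₀⟩ := Filter.eventually_atTop.1 (h l hl)
  refine ⟨X₀, ?_⟩
  intro X hX Z L hL hZ
  have h3 := hX₀ X hX Z L hL hZ
  refine le_trans ?_ h3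
  rw [← Set.ncard_coe_finset]
  have hadm : ∀ n : ℕ, (r * n + 1).Coprime a → R121.LA.AdmA a r 1 n := by
    intro n hn p hp
    by_contra hno
    push Not at hno
    have k0 := hno 0
    have k1 := hno 1
    have e0 : ((a * 0 + r : ℕ) : ℤ) * n + 1 = ((r * n + 1 : ℕ) : ℤ) := by push_cast; ring
    have e1 : ((a * 1 + r : ℕ) : ℤ) * n + 1 = ((a * n + (r * n + 1) : ℕ) : ℤ) := by push_cast; ring
    rw [e0] at k0
    rw [e1] at k1
    have l0 : p ∣ r * n + 1 := by exact_mod_cast k0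
    have l1 : p ∣ a * n + (r * n + 1) := by exact_mod_cast k1
    have l2 : p ∣ a * n := (Nat.dvd_add_left l0).1 l1
    rcases (Nat.Prime.dvd_mul hp).1 l2 with h4 | h4
    · have h5 := Nat.dvd_gcd l0 h4
      rw [hn] at h5
      exact hp.one_lt.ne' (Nat.dvd_one.1 h5)
    · have h5 : p ∣ 1 := (Nat.dvd_add_right (h4.mul_left r)).1 l0
      exact hp.one_lt.ne' (Nat.dvd_one.1 h5)
  have hsub : ({n : ℕ | n ∈ Ioc Z (Z + L) ∧ (r * n + 1).Coprime a ∧
        (multipliers a r n k ((X : ℝ) ^ (θ / 10)) (l * Real.log X) : ℝ) < κ * l} : Set ℕ) ⊆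
      (((Ioc Z (Z + L)).filter (fun n => R121.LA.AdmA a r 1 n ∧
        (R490.LGb.cnt (fun j => a * j + r) (fun _ => 1) k ⌊l * Real.log X⌋₊ n
          ((X : ℝ) ^ (θ / 10)) : ℝ) < κ * l)) : Finset ℕ) := by
    intro n hn
    obtain ⟨a1, ao, a2⟩ := hn
    rw [mem_coe, mem_filter]
    refine ⟨a1, hadm n ao, ?_⟩
    have a3 : (R490.LGb.cnt (fun j => a * j + r) (fun _ => 1) k ⌊l * Real.log X⌋₊ n
        ((X : ℝ) ^ (θ / 10)) : ℝ) ≤
        multipliers a r n k ((X : ℝ) ^ (θ / 10)) (l * Real.log X) := by exact_mod_cast cnt_le a r n k _ _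
    linarith
  have h4 := Set.ncard_le_ncard hsub (Finset.finite_toSet _)
  exact_mod_cast h4

end Pool.Agent.Results.MP_0911b1_nt.SmallMultipliersAlmostPrimes
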